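import Pool.Agent.L0h43.TB.Ind3
import Pool.Agent.L0h43.TA.Rx2
import Pool.Agent.TH891.BD.B8

/-!
# Proportions from weighted upper bounds and a lower bound for the sum
-/

set_option autoImplicit false

namespace Pool.Agent.L0h43.TC

open Finset Filter Topology Pool.Agent.H387R2
open Pool.Agent.L0h43.TA Pool.Agent.L0h43.TB

open Classical in
/-- from weighted upper bounds and a lower bound for the total to the weight of the regular elements -/
lemma prop_core {ι : Type*} (S : Finset ι) (C n : ι → ℝ) (hC : ∀ i, 0 ≤ C i)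
    {P M e c ε lamb : ℝ} (hP : 0 < P) (hM : 0 ≤ M) (hc : 0 ≤ c) (hε : 0 < ε)
    (hU : ∀ g : ι → ℝ, (∀ i, 0 ≤ g i) → (∀ i, g i ≤ 1) →
      ∑ i ∈ S, g i * n i ≤ (M * ∑ i ∈ S, g i * C i + e) * P)
    (hL : lamb * (∑ i ∈ S, C i) * P ≤ ∑ i ∈ S, n i) :
    (lamb - c) * ∑ i ∈ S, C i ≤
      (M - c) * ∑ i ∈ S.filter (fun i => c * C i * P ≤ n i ∧ n i ≤ (M + ε) * C i * P), C i + (2 + M / ε) * e := by
  obtain ⟨G, hG⟩ : ∃ G, G = S.filter (fun i => c * C i * P ≤ n i ∧ n i ≤ (M + ε) * C i * P) := ⟨_, rfl⟩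
  obtain ⟨B, hB⟩ : ∃ B, B = S.filter (fun i => ¬ (c * C i * P ≤ n i ∧ n i ≤ (M + ε) * C i * P)) := ⟨_, rfl⟩
  obtain ⟨Hi, hHi⟩ : ∃ Hi, Hi = B.filter (fun i => (M + ε) * C i * P < n i) := ⟨_, rfl⟩
  obtain ⟨Lo, hLo⟩ : ∃ Lo, Lo = B.filter (fun i => ¬ ((M + ε) * C i * P < n i)) := ⟨_, rfl⟩
  have hspl : ∀ f : ι → ℝ, ∑ i ∈ S, f i = ∑ i ∈ G, f i + (∑ i ∈ Hi, f i + ∑ i ∈ Lo, f i) := by
    intro f
    rw [hHi, hLo, sum_filter_add_sum_filter_not, hG, hB, sum_filter_add_sum_filter_not]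
  have hsubG : G ⊆ S := by rw [hG]; exact filter_subset _ _
  have hsubH : Hi ⊆ S := by
    rw [hHi, hB]
    exact (filter_subset _ _).trans (filter_subset _ _)
  have key : ∀ T : Finset ι, T ⊆ S → ∑ i ∈ T, n i ≤ (M * ∑ i ∈ T, C i + e) * P := by
    intro T hT
    have h := hU (fun i => if i ∈ T then 1 else 0) (fun i => by split_ifs <;> norm_num)
      (fun i => by split_ifs <;> norm_num)
    simp only [ite_mul, one_mul, zero_mul] at h
    rw [← sum_filter, ← sum_filter, filter_mem_eq_inter, inter_eq_right.2 hT] at h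
    exact h
  have h1 := key G hsubG
  have h2 := key Hi hsubH
  have h3 : ((M + ε) * ∑ i ∈ Hi, C i) * P ≤ ∑ i ∈ Hi, n i := by
    rw [mul_sum, sum_mul]
    apply sum_le_sum
    intro i hi
    rw [hHi, mem_filter] at hi
    exact hi.2.le
  have h4 : ε * ∑ i ∈ Hi, C i ≤ e := by
    have := le_of_mul_le_mul_right (h3.trans h2) hP
    linarith
  have h5 : M * ∑ i ∈ Hi, C i ≤ M / ε * e := by
    calc M * ∑ i ∈ Hi, C i = M / ε * (ε * ∑ i ∈ Hi, C i) := by field_simp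
      _ ≤ _ := mul_le_mul_of_nonneg_left h4 (by positivity)
  have h6 : ∑ i ∈ Lo, n i ≤ (c * ∑ i ∈ Lo, C i) * P := by
    rw [mul_sum, sum_mul]
    apply sum_le_sum
    intro i hi
    rw [hLo, hB, mem_filter, mem_filter] at hi
    obtain ⟨⟨_, h7⟩, h8⟩ := hi
    by_contra h9
    exact h7 ⟨(not_le.1 h9).le, not_lt.1 h8⟩
  have h7 : ∑ i ∈ Lo, C i ≤ ∑ i ∈ S, C i - ∑ i ∈ G, C i := by
    rw [hspl C]
    have : 0 ≤ ∑ i ∈ Hi, C i := sum_nonneg fun i _ => hC i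
    linarith
  have h8 := mul_le_mul_of_nonneg_left h7 hc
  rw [hspl n] at hL
  rw [← hG]
  have h9 : lamb * (∑ i ∈ S, C i) * P ≤ ((M * ∑ i ∈ G, C i + e) + ((M * ∑ i ∈ Hi, C i + e) +
      c * (∑ i ∈ S, C i - ∑ i ∈ G, C i))) * P := by
    have h10 := mul_le_mul_of_nonneg_right h8 hP.le
    calc lamb * (∑ i ∈ S, C i) * P ≤ _ := hL
      _ ≤ (M * ∑ i ∈ G, C i + e) * P + ((M * ∑ i ∈ Hi, C i + e) * P +
          (c * (∑ i ∈ S, C i - ∑ i ∈ G, C i)) * P) := by linarith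
      _ = _ := by ring
  have h10 := le_of_mul_le_mul_right h9 hP
  linarith

/-! ### Translation -/

lemma cnt_shift (x : ℝ) (a : ℕ) (T : Finset ℕ) : cnt x (T.image (· + a)) ≤ cnt x T + a := by
  classical
  unfold cnt
  obtain ⟨N, hN⟩ : ∃ N, N = ⌊x⌋₊ := ⟨_, rfl⟩
  rw [← hN]
  have h1 : ((Icc 1 N).filter (fun m => ∀ t ∈ T.image (· + a), (m + t).Prime)).image (· + a) ⊆
      (Icc 1 N).filter (fun m => ∀ t ∈ T, (m + t).Prime) ∪ Ioc N (N + a) := by
    intro m hm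
    rw [mem_image] at hm
    obtain ⟨m', hm', rfl⟩ := hm
    rw [mem_filter, mem_Icc] at hm'
    rw [mem_union, mem_filter, mem_Icc, mem_Ioc]
    by_cases h : m' + a ≤ N
    · left
      refine ⟨⟨by omega, h⟩, fun t ht => ?_⟩
      have := hm'.2 (t + a) (mem_image_of_mem _ ht)
      have e : m' + a + t = m' + (t + a) := by ring
      rw [e]
      exact this
    · right; omega
  have h2 := (card_le_card h1).trans (card_union_le _ _)
  rw [card_image_of_injective _ (add_left_injective a), Nat.card_Ioc, Nat.add_sub_cancel_left] at h2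
  exact h2

lemma shp_win {k z H : ℕ} {T : Finset ℕ} (hT : T.card = k + 1) (hTH : T ⊆ Ico z (z + H)) :
    (shp T).1 ∈ Ico z (z + H) ∧ (shp T).2 ∈ (Ioc 0 H).powersetCard k ∧
      T = (insert 0 (shp T).2).image (· + (shp T).1) := by
  classical
  have h0 : T ⊆ range (z + H) := fun t ht => mem_range.2 (mem_Ico.1 (hTH ht)).2
  obtain ⟨h1, h2, h3⟩ := shp_props hT h0
  have h4 : (shp T).1 ∈ T := by
    have : (shp T).1 ∈ (insert 0 (shp T).2).image (· + (shp T).1) :=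
      mem_image.2 ⟨0, mem_insert_self _ _, zero_add _⟩
    rw [← h3] at this
    exact this
  refine ⟨hTH h4, ?_, h3⟩
  rw [mem_powersetCard] at h2 ⊢
  refine ⟨fun d hd => ?_, h2.2⟩
  have h5 := mem_Icc.1 (h2.1 hd)
  have h6 : d + (shp T).1 ∈ T := by
    have : d + (shp T).1 ∈ (insert 0 (shp T).2).image (· + (shp T).1) :=
      mem_image.2 ⟨d, mem_insert_of_mem hd, rfl⟩
    rw [← h3] at this
    exact this
  have h7 := mem_Ico.1 (hTH h6)
  have h8 := mem_Ico.1 (hTH h4)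
  rw [mem_Ioc]
  omega

lemma shp_phi {k H a : ℕ} {D : Finset ℕ} (hD : D ∈ (Ioc 0 H).powersetCard k) :
    shp ((insert 0 D).image (· + a)) = (a, D) := by
  classical
  rw [mem_powersetCard] at hD
  have hs1 : sInf (((insert 0 D).image (· + a) : Finset ℕ) : Set ℕ) = a := by
    apply le_antisymm
    · apply Nat.sInf_le
      rw [mem_coe, mem_image]
      exact ⟨0, mem_insert_self _ _, zero_add a⟩
    · have hne : (((insert 0 D).image (· + a) : Finset ℕ) : Set ℕ).Nonempty :=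
        ⟨a, by rw [mem_coe, mem_image]; exact ⟨0, mem_insert_self _ _, zero_add a⟩⟩
      have := Nat.sInf_mem hne
      rw [mem_coe, mem_image] at this
      obtain ⟨b, _, hb⟩ := this
      omega
  unfold shp
  rw [hs1]
  congr 1
  ext d
  simp only [mem_image, mem_erase, mem_insert]
  constructor
  · rintro ⟨t, ⟨h1, s, h2, rfl⟩, rfl⟩
    rcases h2 with rfl | h2
    · exact absurd (zero_add a) h1
    · rwa [Nat.add_sub_cancel]
  · intro hd
    have := mem_Ioc.1 (hD.1 hd)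
    exact ⟨d + a, ⟨by omega, d, Or.inr hd, rfl⟩, Nat.add_sub_cancel d a⟩

/-- **weighted upper bound for the sets in a window** -/
theorem TW_up (k : ℕ) (ε : ℝ) (hε : 0 < ε) : ∃ K : ℝ, 1 ≤ K ∧ ∀ A : ℝ, 0 ≤ A → ∀ᶠ x : ℝ in atTop,
    ∀ z H : ℕ, K * Real.log x ≤ H → ((z + H : ℕ) : ℝ) ≤ Real.log x ^ A → ∀ g : Finset ℕ → ℝ,
      (∀ T, 0 ≤ g T) → (∀ T, g T ≤ 1) →
      ∑ T ∈ (Ico z (z + H)).powersetCard (k + 1), g T * (cnt x T : ℝ) ≤
        (4 ^ k * ∑ T ∈ (Ico z (z + H)).powersetCard (k + 1), g T * Uni.CT T + ε * (H : ℝ) ^ (k + 1)) *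
          (x / Real.log x ^ (k + 1)) := by
  classical
  obtain ⟨K, hK, H0⟩ := W_all k (ε / 2) (by positivity)
  refine ⟨K, hK, fun A hA => ?_⟩
  filter_upwards [H0 A hA, ev_small (ε / 2) (by positivity) (A + ((k + 1 : ℕ) : ℝ)), eventually_gt_atTop 1]
    with x hx h2 hx1
  intro z H hKH hHA g hg0 hg1
  have hx0 : 0 < x := by linarith
  obtain ⟨l, hl⟩ : ∃ l, l = Real.log x := ⟨_, rfl⟩
  have hl0 : 0 < l := by rw [hl]; exact Real.log_pos hx1
  rw [← hl] at hx h2 hKH hHA ⊢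
  obtain ⟨P, hP⟩ : ∃ P, P = x / l ^ (k + 1) := ⟨_, rfl⟩
  have hP0 : 0 < P := by rw [hP]; positivity
  rw [← hP]
  obtain ⟨F, hF⟩ : ∃ F : ℕ × Finset ℕ → Finset ℕ, F = fun y => (insert 0 y.2).image (· + y.1) := ⟨_, rfl⟩
  obtain ⟨𝒯, h𝒯⟩ : ∃ 𝒯, 𝒯 = (Ico z (z + H)).powersetCard (k + 1) := ⟨_, rfl⟩
  rw [← h𝒯]
  have hF1 : ∀ T ∈ 𝒯, F (shp T) = T := by
    intro T hT
    rw [h𝒯, mem_powersetCard] at hT
    rw [hF]
    exact (shp_win hT.2 hT.1).2.2.symm
  have hmem : ∀ T ∈ 𝒯, shp T ∈ (Ico z (z + H)) ×ˢ ((Ioc 0 H).powersetCard k) := by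
    intro T hT
    rw [h𝒯, mem_powersetCard] at hT
    rw [mem_product]
    exact ⟨(shp_win hT.2 hT.1).1, (shp_win hT.2 hT.1).2.1⟩
  have hinj : Set.InjOn shp (𝒯 : Set (Finset ℕ)) := by
    intro T hT S hS hTS
    rw [← hF1 T hT, ← hF1 S hS, hTS]
  obtain ⟨w, hw⟩ : ∃ w : ℕ → Finset ℕ → ℝ, w = fun a D => if F (a, D) ∈ 𝒯 then g (F (a, D)) else 0 := ⟨_, rfl⟩
  have hw0 : ∀ a D, 0 ≤ w a D := by
    intro a D
    rw [hw]
    show 0 ≤ (if F (a, D) ∈ 𝒯 then g (F (a, D)) else 0 : ℝ)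
    split_ifs
    · exact hg0 _
    · exact le_rfl
  have hw1 : ∀ a D, w a D ≤ 1 := by
    intro a D
    rw [hw]
    show (if F (a, D) ∈ 𝒯 then g (F (a, D)) else 0 : ℝ) ≤ 1
    split_ifs
    · exact hg1 _
    · norm_num
  have hww : ∀ T ∈ 𝒯, w (shp T).1 (shp T).2 = g T := by
    intro T hT
    rw [hw]
    show (if F ((shp T).1, (shp T).2) ∈ 𝒯 then g (F ((shp T).1, (shp T).2)) else 0 : ℝ) = g T
    have e : ((shp T).1, (shp T).2) = shp T := rfl
    rw [e, hF1 T hT, if_pos hT]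
  -- sums over `T` as sums over pairs
  have hpass : ∀ f : ℕ → Finset ℕ → ℝ, (∀ a D, 0 ≤ f a D) →
      ∑ T ∈ 𝒯, g T * f (shp T).1 (shp T).2 ≤
        ∑ a ∈ Ico z (z + H), ∑ D ∈ (Ioc 0 H).powersetCard k, w a D * f a D := by
    intro f hf
    have h3 : ∑ T ∈ 𝒯, g T * f (shp T).1 (shp T).2 = ∑ T ∈ 𝒯, w (shp T).1 (shp T).2 * f (shp T).1 (shp T).2 :=
      sum_congr rfl fun T hT => by rw [hww T hT]
    rw [h3, ← sum_image (g := shp) (f := fun y : ℕ × Finset ℕ => w y.1 y.2 * f y.1 y.2) hinj, ← sum_product']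
    apply sum_le_sum_of_subset_of_nonneg
    · intro y hy
      obtain ⟨T, hT, rfl⟩ := mem_image.1 hy
      exact hmem T hT
    · intro y _ _
      exact mul_nonneg (hw0 _ _) (hf _ _)
  have h4 : ∑ T ∈ 𝒯, g T * (cnt x T : ℝ) ≤
      ∑ T ∈ 𝒯, g T * ((fun (a : ℕ) (D : Finset ℕ) => (cnt x (insert 0 D) : ℝ) + (a : ℝ)) (shp T).1 (shp T).2) := by
    apply sum_le_sum
    intro T hT
    apply mul_le_mul_of_nonneg_left _ (hg0 T)
    have h5 := cnt_shift x (shp T).1 (insert 0 (shp T).2)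
    have e : (insert 0 (shp T).2).image (· + (shp T).1) = T := by
      have := hF1 T hT
      rw [hF] at this
      exact this
    rw [e] at h5
    show (cnt x T : ℝ) ≤ (cnt x (insert 0 (shp T).2) : ℝ) + ((shp T).1 : ℝ)
    exact_mod_cast h5
  refine h4.trans ((hpass (fun (a : ℕ) (D : Finset ℕ) => (cnt x (insert 0 D) : ℝ) + (a : ℝ))
    (fun a D => by positivity)).trans ?_)
  have h6 : ∀ a ∈ Ico z (z + H), ∑ D ∈ (Ioc 0 H).powersetCard k, w a D * ((cnt x (insert 0 D) : ℝ) + a) ≤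
      (4 ^ k * ∑ D ∈ (Ioc 0 H).powersetCard k, w a D * Uni.CT (insert 0 D) + ε / 2 * (H : ℝ) ^ k) * P +
        (H : ℝ) ^ k * l ^ A := by
    intro a ha
    have h7 := hx 0 H hKH (by
      rw [Nat.zero_add]
      refine le_trans ?_ hHA
      exact_mod_cast Nat.le_add_left H z) (w a) (hw0 a) (hw1 a)
    rw [Nat.zero_add, ← hP] at h7
    have h8 : ∑ D ∈ (Ioc 0 H).powersetCard k, w a D * ((cnt x (insert 0 D) : ℝ) + a) =
        ∑ D ∈ (Ioc 0 H).powersetCard k, w a D * (cnt x (insert 0 D) : ℝ) +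
          ∑ D ∈ (Ioc 0 H).powersetCard k, w a D * (a : ℝ) := by
      rw [← sum_add_distrib]
      exact sum_congr rfl fun D _ => mul_add _ _ _
    rw [h8]
    apply add_le_add h7
    have haA : (a : ℝ) ≤ l ^ A := by
      refine le_trans ?_ hHA
      exact_mod_cast (mem_Ico.1 ha).2.le
    calc ∑ D ∈ (Ioc 0 H).powersetCard k, w a D * (a : ℝ) ≤ ∑ D ∈ (Ioc 0 H).powersetCard k, l ^ A := by
          apply sum_le_sum
          intro D _
          calc w a D * (a : ℝ) ≤ 1 * (a : ℝ) := mul_le_mul_of_nonneg_right (hw1 a D) (Nat.cast_nonneg _)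
            _ ≤ l ^ A := by rw [one_mul]; exact haA
      _ = ((H.choose k : ℕ) : ℝ) * l ^ A := by
          rw [sum_const, card_powersetCard, Nat.card_Ioc, Nat.sub_zero, nsmul_eq_mul]
      _ ≤ (H : ℝ) ^ k * l ^ A := by
          apply mul_le_mul_of_nonneg_right _ (by positivity)
          have h9 := choose_le_pow' H k
          have h10 : (1 : ℝ) ≤ k.factorial := by exact_mod_cast k.factorial_pos
          have h11 : (0 : ℝ) ≤ (H.choose k : ℝ) := Nat.cast_nonneg _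
          have h12 := mul_le_mul_of_nonneg_right h10 h11
          rw [one_mul] at h12
          exact h12.trans h9
  refine (sum_le_sum h6).trans ?_
  rw [sum_add_distrib, ← sum_mul, sum_add_distrib, ← mul_sum, sum_const, sum_const, Nat.card_Ico,
    Nat.add_sub_cancel_left, nsmul_eq_mul, nsmul_eq_mul]
  -- the main term
  have h13 : ∑ a ∈ Ico z (z + H), ∑ D ∈ (Ioc 0 H).powersetCard k, w a D * Uni.CT (insert 0 D) ≤
      ∑ T ∈ 𝒯, g T * Uni.CT T := by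
    rw [← sum_product']
    have h14 : ∀ y ∈ (Ico z (z + H)) ×ˢ ((Ioc 0 H).powersetCard k), w y.1 y.2 * Uni.CT (insert 0 y.2) =
        if F y ∈ 𝒯 then g (F y) * Uni.CT (F y) else 0 := by
      intro y _
      have e1 : w y.1 y.2 = if F y ∈ 𝒯 then g (F y) else 0 := by rw [hw]
      have e2 : Uni.CT (F y) = Uni.CT (insert 0 y.2) := by
        rw [hF]
        exact Pool.Agent.TH891.SG.CT_add _ _
      rw [e1, e2]
      split_ifs
      · rfl
      · rw [zero_mul]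
    rw [sum_congr rfl h14, ← sum_filter]
    have hinj2 : Set.InjOn F (((Ico z (z + H)) ×ˢ ((Ioc 0 H).powersetCard k)).filter (fun y => F y ∈ 𝒯) :
        Set (ℕ × Finset ℕ)) := by
      intro y hy y' hy' hyy
      rw [mem_coe, mem_filter, mem_product] at hy hy'
      have e3 : shp (F y) = y := by rw [hF]; exact shp_phi hy.1.2
      have e4 : shp (F y') = y' := by rw [hF]; exact shp_phi hy'.1.2
      rw [← e3, ← e4, hyy]
    rw [← sum_image (g := F) (f := fun T => g T * Uni.CT T) hinj2]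
    apply sum_le_sum_of_subset_of_nonneg
    · intro T hT
      obtain ⟨y, hy, rfl⟩ := mem_image.1 hT
      exact (mem_filter.1 hy).2
    · intro T _ _
      exact mul_nonneg (hg0 T) (Uni.CT_nonneg T)
  -- the error term
  have h15 : l ^ A ≤ ε / 2 * P := by
    rw [Real.rpow_add hl0, Real.rpow_natCast] at h2
    rw [hP, mul_div_assoc', le_div_iff₀ (by positivity)]
    refine h2.trans ?_
    apply mul_le_mul_of_nonneg_left _ (by positivity)
    calc x ^ (1 / 2 : ℝ) ≤ x ^ (1 : ℝ) := Real.rpow_le_rpow_of_exponent_le hx1.le (by norm_num)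
      _ = x := Real.rpow_one x
  have h16 := mul_le_mul_of_nonneg_left h13 (show (0 : ℝ) ≤ 4 ^ k by positivity)
  have h17 := mul_le_mul_of_nonneg_right h16 hP0.le
  have h18 : (H : ℝ) * ((H : ℝ) ^ k * l ^ A) ≤ (H : ℝ) * ((H : ℝ) ^ k * (ε / 2 * P)) := by gcongr
  have e5 : (H : ℝ) ^ (k + 1) = H * (H : ℝ) ^ k := by rw [pow_succ, mul_comm]
  rw [e5]
  calc (4 ^ k * ∑ a ∈ Ico z (z + H), ∑ D ∈ (Ioc 0 H).powersetCard k, w a D * Uni.CT (insert 0 D) +
        (H : ℝ) * (ε / 2 * (H : ℝ) ^ k)) * P + (H : ℝ) * ((H : ℝ) ^ k * l ^ A) =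
      (4 ^ k * ∑ a ∈ Ico z (z + H), ∑ D ∈ (Ioc 0 H).powersetCard k, w a D * Uni.CT (insert 0 D)) * P +
        (H : ℝ) * ((H : ℝ) ^ k * (ε / 2 * P)) + (H : ℝ) * ((H : ℝ) ^ k * l ^ A) := by ring
    _ ≤ (4 ^ k * ∑ T ∈ 𝒯, g T * Uni.CT T) * P + (H : ℝ) * ((H : ℝ) ^ k * (ε / 2 * P)) +
        (H : ℝ) * ((H : ℝ) ^ k * (ε / 2 * P)) := by linarith
    _ = _ := by ring

end Pool.Agent.L0h43.TC
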