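import Pool.Agent.L0h43.TC.Low

/-!
# The proportions
-/

set_option autoImplicit false

namespace Pool.Agent.L0h43.TC

open Finset Filter Topology Pool.Agent.H387R2
open Pool.Agent.L0h43.TA Pool.Agent.L0h43.TB

lemma close {M c lam0 ε S G e : ℝ} (hM : c + 1 ≤ M) (hM0 : 0 ≤ M) (hε : 0 < ε) (hS : 0 ≤ S)
    (he : e ≤ ε / (2 * (2 + M / ε)) * S)
    (h : (lam0 - ε / 2 - c) * S ≤ (M - c) * G + (2 + M / ε) * e) :
    ((lam0 - c) / (M - c) - ε) * S ≤ G := by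
  have hMc : 1 ≤ M - c := by linarith
  have hMc0 : 0 < M - c := by linarith
  have h2 : 0 < 2 + M / ε := by positivity
  have h3 : (2 + M / ε) * e ≤ ε / 2 * S := by
    calc (2 + M / ε) * e ≤ (2 + M / ε) * (ε / (2 * (2 + M / ε)) * S) := mul_le_mul_of_nonneg_left he h2.le
      _ = ε / 2 * S := by field_simp
  have h4 : (lam0 - c - ε) * S ≤ (M - c) * G := by linarith
  have h5 : (M - c) * (((lam0 - c) / (M - c) - ε) * S) ≤ (lam0 - c - ε) * S := by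
    have e1 : (M - c) * (((lam0 - c) / (M - c) - ε) * S) = (lam0 - c) * S - (M - c) * (ε * S) := by
      field_simp
    rw [e1]
    have : ε * S ≤ (M - c) * (ε * S) := le_mul_of_one_le_left (by positivity) hMc
    linarith
  exact le_of_mul_le_mul_left (h5.trans h4) hMc0

open Classical in
/-- **anchored sets: the proportion** -/
theorem anch_prop (k : ℕ) (hk : 1 ≤ k) (c ε : ℝ) (hc : 0 ≤ c) (hc1 : c ≤ 1) (hε : 0 < ε) : ∃ K : ℝ, 1 ≤ K ∧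
    ∀ A : ℝ, 0 ≤ A → ∀ᶠ x : ℝ in atTop, ∀ H : ℕ, K * Real.log x ≤ H → (H : ℝ) ≤ Real.log x ^ A →
      ((lam 4 k - c) / (4 ^ k - c) - ε) * ∑ D ∈ (Icc 2 H).powersetCard k, Uni.CT (insert 0 D) ≤
        ∑ D ∈ ((Icc 2 H).powersetCard k).filter (fun D =>
          c * Uni.CT (insert 0 D) * (x / Real.log x ^ (k + 1)) ≤ (cnt x (insert 0 D) : ℝ) ∧
          (cnt x (insert 0 D) : ℝ) ≤ (4 ^ k + ε) * Uni.CT (insert 0 D) * (x / Real.log x ^ (k + 1))),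
          Uni.CT (insert 0 D) := by
  have h4k : (4 : ℝ) ≤ 4 ^ k := by
    calc (4 : ℝ) = 4 ^ 1 := by norm_num
      _ ≤ 4 ^ k := pow_le_pow_right₀ (by norm_num) hk
  have hf0 : (0 : ℝ) < k.factorial := by exact_mod_cast k.factorial_pos
  obtain ⟨e1, he1⟩ : ∃ e1 : ℝ, e1 = ε / (2 * (2 + 4 ^ k / ε)) / (2 * k.factorial) := ⟨_, rfl⟩
  have he10 : 0 < e1 := by rw [he1]; positivity
  obtain ⟨K1, hK1, H1⟩ := W_all k e1 he10
  obtain ⟨K2, hK2, H2⟩ := all_real2 k hk (ε / 2) (by positivity)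
  obtain ⟨D₀, hD₀⟩ := anch_lo k (1 / 2) (by norm_num)
  refine ⟨max K1 K2, hK1.trans (le_max_left _ _), fun A hA => ?_⟩
  filter_upwards [H1 A hA, H2 A, Real.tendsto_log_atTop.eventually_ge_atTop (max 1 (D₀ : ℝ)),
    eventually_gt_atTop 1] with x g1 g2 hlD hx1
  intro H hKH hHA
  have hx0 : 0 < x := by linarith
  obtain ⟨l, hl⟩ : ∃ l, l = Real.log x := ⟨_, rfl⟩
  rw [← hl] at g1 g2 hlD hKH hHA ⊢
  have hl1 : 1 ≤ l := (le_max_left _ _).trans hlD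
  have hl0 : 0 < l := by linarith
  obtain ⟨P, hP⟩ : ∃ P, P = x / l ^ (k + 1) := ⟨_, rfl⟩
  have hP0 : 0 < P := by rw [hP]; positivity
  rw [← hP] at g1 g2 ⊢
  have hKH1 : K1 * l ≤ H := (mul_le_mul_of_nonneg_right (le_max_left _ _) hl0.le).trans hKH
  have hKH2 : K2 * l ≤ H := (mul_le_mul_of_nonneg_right (le_max_right _ _) hl0.le).trans hKH
  have hlH : l ≤ H := (le_mul_of_one_le_left hl0.le hK1).trans hKH1
  have hDH : D₀ ≤ H := by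
    have : (D₀ : ℝ) ≤ H := ((le_max_right _ _).trans hlD).trans hlH
    exact_mod_cast this
  have h1 := hD₀ H hDH
  obtain ⟨S, hS⟩ : ∃ S, S = (Icc 2 H).powersetCard k := ⟨_, rfl⟩
  have h2 := g2 H hKH2 hHA
  have e2 : SA k H = ∑ D ∈ S, Uni.CT (insert 0 D) := by rw [hS]; rfl
  have e3 : QA k H ⌊x⌋₊ = ∑ D ∈ S, (cnt x (insert 0 D) : ℝ) := by rw [hS]; rfl
  rw [e2, e3] at h2
  rw [← hS] at h1 ⊢
  have hsub : S ⊆ (Ioc 0 (0 + H)).powersetCard k := by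
    rw [hS]
    apply powersetCard_mono
    intro a ha
    rw [mem_Icc] at ha
    rw [mem_Ioc]
    omega
  have hU : ∀ g : Finset ℕ → ℝ, (∀ i, 0 ≤ g i) → (∀ i, g i ≤ 1) →
      ∑ D ∈ S, g D * (cnt x (insert 0 D) : ℝ) ≤
        (4 ^ k * ∑ D ∈ S, g D * Uni.CT (insert 0 D) + e1 * (H : ℝ) ^ k) * P := by
    intro g hg0 hg1
    have h3 := g1 0 H hKH1 (by rw [Nat.zero_add]; exact hHA) (fun D => if D ∈ S then g D else 0)
      (fun D => by split_ifs; exacts [hg0 D, le_rfl]) (fun D => by split_ifs; exacts [hg1 D, zero_le_one])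
    simp only [ite_mul, zero_mul] at h3
    rw [← sum_filter, ← sum_filter, filter_mem_eq_inter, inter_eq_right.2 hsub] at h3
    exact h3
  have hcore := prop_core S (fun D => Uni.CT (insert 0 D)) (fun D => (cnt x (insert 0 D) : ℝ))
    (fun D => Uni.CT_nonneg _) hP0 (show (0 : ℝ) ≤ 4 ^ k by positivity) hc hε hU
    (lamb := lam 4 k - ε / 2) (by rw [mul_assoc]; exact h2)
  have hS0 : 0 ≤ ∑ D ∈ S, Uni.CT (insert 0 D) := sum_nonneg fun D _ => Uni.CT_nonneg _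
  refine close (by linarith) (by positivity) hε hS0 ?_ hcore
  have h4 : (H : ℝ) ^ k ≤ 2 * k.factorial * ∑ D ∈ S, Uni.CT (insert 0 D) := by linarith
  calc e1 * (H : ℝ) ^ k ≤ e1 * (2 * k.factorial * ∑ D ∈ S, Uni.CT (insert 0 D)) :=
        mul_le_mul_of_nonneg_left h4 he10.le
    _ = _ := by rw [he1]; field_simp

open Classical in
/-- **the problem's range** -/
theorem prob_prop (k : ℕ) (hk : 1 ≤ k) (c ε : ℝ) (hc : 0 ≤ c) (hc1 : c ≤ 1) (hε : 0 < ε) : ∀ᶠ x : ℝ in atTop,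
      ((lam 4 k - c) / (4 ^ k - c) - ε) * ∑ D ∈ (Icc 2 ⌊Real.log x ^ (k + 1)⌋₊).powersetCard k,
        Uni.CT (insert 0 D) ≤
        ∑ D ∈ ((Icc 2 ⌊Real.log x ^ (k + 1)⌋₊).powersetCard k).filter (fun D =>
          c * Uni.CT (insert 0 D) * (x / Real.log x ^ (k + 1)) ≤ (cnt x (insert 0 D) : ℝ) ∧
          (cnt x (insert 0 D) : ℝ) ≤ (4 ^ k + ε) * Uni.CT (insert 0 D) * (x / Real.log x ^ (k + 1))),
          Uni.CT (insert 0 D) := by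
  obtain ⟨K, hK, h⟩ := anch_prop k hk c ε hc hc1 hε
  filter_upwards [h ((k + 1 : ℕ) : ℝ) (Nat.cast_nonneg _), Real.tendsto_log_atTop.eventually_ge_atTop (K + 1)]
    with x h1 h2
  have hL1 : 1 ≤ Real.log x := by linarith
  apply h1
  · have h3 : Real.log x ^ (k + 1) < (⌊Real.log x ^ (k + 1)⌋₊ : ℝ) + 1 := Nat.lt_floor_add_one _
    have h4 : Real.log x ^ 2 ≤ Real.log x ^ (k + 1) := pow_le_pow_right₀ hL1 (by omega)
    nlinarith
  · rw [Real.rpow_natCast]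
    exact Nat.floor_le (by positivity)

open Classical in
/-- **dense sets of shifts** -/
theorem dense_prop (k : ℕ) (hk : 1 ≤ k) (c ρ ε : ℝ) (hc : 0 ≤ c) (hc1 : c ≤ 1) (hρ : 0 < ρ) (hε : 0 < ε) :
    ∃ K : ℝ, 1 ≤ K ∧ ∀ A : ℝ, 0 ≤ A → ∀ᶠ x : ℝ in atTop, ∀ z H : ℕ, K * Real.log x ≤ H →
      ((z + H : ℕ) : ℝ) ≤ Real.log x ^ A → ∀ S ⊆ Ico z (z + H), ρ * H ≤ (S.card : ℝ) →
      (1 - ε) * (∑ T ∈ S.powersetCard (k + 1), Uni.CT T) * (x / Real.log x ^ (k + 1)) ≤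
        ∑ T ∈ S.powersetCard (k + 1), (cnt x T : ℝ) ∧
      ∑ T ∈ S.powersetCard (k + 1), (cnt x T : ℝ) ≤
        (4 ^ k + ε) * (∑ T ∈ S.powersetCard (k + 1), Uni.CT T) * (x / Real.log x ^ (k + 1)) ∧
      ((1 - c) / (4 ^ k - c) - ε) * ∑ T ∈ S.powersetCard (k + 1), Uni.CT T ≤
        ∑ T ∈ (S.powersetCard (k + 1)).filter (fun T =>
          c * Uni.CT T * (x / Real.log x ^ (k + 1)) ≤ (cnt x T : ℝ) ∧
          (cnt x T : ℝ) ≤ (4 ^ k + ε) * Uni.CT T * (x / Real.log x ^ (k + 1))), Uni.CT T := by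
  have h4k : (4 : ℝ) ≤ 4 ^ k := by
    calc (4 : ℝ) = 4 ^ 1 := by norm_num
      _ ≤ 4 ^ k := pow_le_pow_right₀ (by norm_num) hk
  obtain ⟨κ, hκ0, hκ⟩ := dense_CT k
  obtain ⟨e0, he0⟩ : ∃ e0 : ℝ, e0 = ε / (2 * (2 + 4 ^ k / ε)) := ⟨_, rfl⟩
  have he00 : 0 < e0 := by rw [he0]; positivity
  have he0ε : e0 ≤ ε := by
    rw [he0, div_le_iff₀ (by positivity)]
    have : 0 < 4 ^ k / ε := by positivity
    nlinarith
  obtain ⟨e1, he1⟩ : ∃ e1 : ℝ, e1 = e0 * (κ * ρ ^ (k + 1)) := ⟨_, rfl⟩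
  have he10 : 0 < e1 := by rw [he1]; positivity
  obtain ⟨K1, hK1, H1⟩ := TW_up k e1 he10
  obtain ⟨K2, hK2, H2⟩ := dense_low k hk (ε / 2) (by positivity)
  refine ⟨max K1 (K2 / ρ), hK1.trans (le_max_left _ _), fun A hA => ?_⟩
  filter_upwards [H1 A hA, H2 A hA, hκ A hA, Real.tendsto_log_atTop.eventually_ge_atTop 1,
    eventually_gt_atTop 1] with x g1 g2 g3 hl1 hx1
  intro z H hKH hHA S hS hScard
  have hx0 : 0 < x := by linarith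
  obtain ⟨l, hl⟩ : ∃ l, l = Real.log x := ⟨_, rfl⟩
  rw [← hl] at g1 g2 g3 hl1 hKH hHA ⊢
  have hl0 : 0 < l := by linarith
  obtain ⟨P, hP⟩ : ∃ P, P = x / l ^ (k + 1) := ⟨_, rfl⟩
  have hP0 : 0 < P := by rw [hP]; positivity
  rw [← hP] at g1 g2 ⊢
  have hKH1 : K1 * l ≤ H := (mul_le_mul_of_nonneg_right (le_max_left _ _) hl0.le).trans hKH
  have hKH2 : K2 / ρ * l ≤ H := (mul_le_mul_of_nonneg_right (le_max_right _ _) hl0.le).trans hKH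
  have hcard : K2 * l ≤ S.card := by
    refine le_trans ?_ hScard
    calc K2 * l = ρ * (K2 / ρ * l) := by field_simp
      _ ≤ ρ * H := mul_le_mul_of_nonneg_left hKH2 hρ.le
  have hSA : ∀ a ∈ S, (a : ℝ) ≤ l ^ A := by
    intro a ha
    refine le_trans ?_ hHA
    exact_mod_cast (mem_Ico.1 (hS ha)).2.le
  have h1 := g2 S hSA hcard
  have h2 := g3 S hSA ((le_mul_of_one_le_left hl0.le hK2).trans hcard)
  obtain ⟨𝒯, h𝒯⟩ : ∃ 𝒯, 𝒯 = S.powersetCard (k + 1) := ⟨_, rfl⟩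
  rw [← h𝒯] at h1 h2 ⊢
  obtain ⟨C, hC⟩ : ∃ C, C = ∑ T ∈ 𝒯, Uni.CT T := ⟨_, rfl⟩
  have hC0 : 0 ≤ C := by rw [hC]; exact sum_nonneg fun T _ => Uni.CT_nonneg T
  have hsub : 𝒯 ⊆ (Ico z (z + H)).powersetCard (k + 1) := by
    rw [h𝒯]
    exact powersetCard_mono hS
  have hU : ∀ g : Finset ℕ → ℝ, (∀ i, 0 ≤ g i) → (∀ i, g i ≤ 1) →
      ∑ T ∈ 𝒯, g T * (cnt x T : ℝ) ≤ (4 ^ k * ∑ T ∈ 𝒯, g T * Uni.CT T + e1 * (H : ℝ) ^ (k + 1)) * P := by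
    intro g hg0 hg1
    have h3 := g1 z H hKH1 hHA (fun T => if T ∈ 𝒯 then g T else 0)
      (fun T => by split_ifs; exacts [hg0 T, le_rfl]) (fun T => by split_ifs; exacts [hg1 T, zero_le_one])
    simp only [ite_mul, zero_mul] at h3
    rw [← sum_filter, ← sum_filter, filter_mem_eq_inter, inter_eq_right.2 hsub] at h3
    exact h3
  have herr : e1 * (H : ℝ) ^ (k + 1) ≤ e0 * C := by
    calc e1 * (H : ℝ) ^ (k + 1) = e0 * (κ * (ρ * H) ^ (k + 1)) := by rw [he1, mul_pow]; ring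
      _ ≤ e0 * (κ * (S.card : ℝ) ^ (k + 1)) := by gcongr
      _ ≤ e0 * C := by
          apply mul_le_mul_of_nonneg_left _ he00.le
          rw [hC]; exact h2
  refine ⟨?_, ?_, ?_⟩
  · refine le_trans ?_ h1
    rw [← hC]
    apply mul_le_mul_of_nonneg_right _ hP0.le
    apply mul_le_mul_of_nonneg_right _ hC0
    linarith
  · have h3 := hU (fun _ => 1) (fun _ => zero_le_one) (fun _ => le_rfl)
    simp only [one_mul] at h3
    refine h3.trans ?_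
    rw [← hC]
    apply mul_le_mul_of_nonneg_right _ hP0.le
    have : e0 * C ≤ ε * C := mul_le_mul_of_nonneg_right he0ε hC0
    linarith
  · have hcore := prop_core 𝒯 (fun T => Uni.CT T) (fun T => (cnt x T : ℝ)) (fun T => Uni.CT_nonneg _) hP0
      (show (0 : ℝ) ≤ 4 ^ k by positivity) hc hε hU (lamb := 1 - ε / 2) h1
    rw [← hC] at hcore ⊢
    refine close (by linarith) (by positivity) hε hC0 ?_ hcore
    rw [← he0]
    exact herr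

open Classical in
/-- **dense sets of primes** -/
theorem rel_prop (k : ℕ) (hk : 1 ≤ k) (c δ ε : ℝ) (hc : 0 ≤ c) (hc1 : c ≤ 1) (hδ : 0 < δ) (hδ1 : δ ≤ 1)
    (hε : 0 < ε) :
    ∃ K : ℝ, 1 ≤ K ∧ ∀ A : ℝ, 0 ≤ A → ∀ᶠ x : ℝ in atTop, ∀ H : ℕ, K * Real.log x ≤ H →
      (H : ℝ) ≤ Real.log x ^ A → ∀ Q : Finset ℕ, (∀ q ∈ Q, q.Prime ∧ (q : ℝ) ≤ x) →
      δ * (x / Real.log x) ≤ Q.card →
      ((δ ^ (k + 1) - c) / (4 ^ k - c) - ε) * ∑ T ∈ (range H).powersetCard (k + 1), Uni.CT T ≤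
        ∑ T ∈ ((range H).powersetCard (k + 1)).filter (fun T =>
          c * Uni.CT T * (x / Real.log x ^ (k + 1)) ≤ (cntQ Q x T : ℝ) ∧
          (cntQ Q x T : ℝ) ≤ (4 ^ k + ε) * Uni.CT T * (x / Real.log x ^ (k + 1))), Uni.CT T := by
  have h4k : (4 : ℝ) ≤ 4 ^ k := by
    calc (4 : ℝ) = 4 ^ 1 := by norm_num
      _ ≤ 4 ^ k := pow_le_pow_right₀ (by norm_num) hk
  obtain ⟨κ, hκ0, hκ⟩ := dense_CT k
  obtain ⟨e0, he0⟩ : ∃ e0 : ℝ, e0 = ε / (2 * (2 + 4 ^ k / ε)) := ⟨_, rfl⟩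
  have he00 : 0 < e0 := by rw [he0]; positivity
  obtain ⟨e1, he1⟩ : ∃ e1 : ℝ, e1 = e0 * κ := ⟨_, rfl⟩
  have he10 : 0 < e1 := by rw [he1]; positivity
  obtain ⟨K1, hK1, H1⟩ := TW_up k e1 he10
  obtain ⟨K2, hK2, H2⟩ := rel_low k δ (ε / 2) hδ hδ1 (by positivity)
  refine ⟨max K1 K2, hK1.trans (le_max_left _ _), fun A hA => ?_⟩
  filter_upwards [H1 A hA, H2 A hA, hκ A hA, Real.tendsto_log_atTop.eventually_ge_atTop 1,
    eventually_gt_atTop 1] with x g1 g2 g3 hl1 hx1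
  intro H hKH hHA Q hQ hQc
  have hx0 : 0 < x := by linarith
  obtain ⟨l, hl⟩ : ∃ l, l = Real.log x := ⟨_, rfl⟩
  rw [← hl] at g1 g2 g3 hl1 hKH hHA hQc ⊢
  have hl0 : 0 < l := by linarith
  obtain ⟨P, hP⟩ : ∃ P, P = x / l ^ (k + 1) := ⟨_, rfl⟩
  have hP0 : 0 < P := by rw [hP]; positivity
  rw [← hP] at g1 g2 ⊢
  have hKH1 : K1 * l ≤ H := (mul_le_mul_of_nonneg_right (le_max_left _ _) hl0.le).trans hKH
  have hKH2 : K2 * l ≤ H := (mul_le_mul_of_nonneg_right (le_max_right _ _) hl0.le).trans hKH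
  have hlH : l ≤ ((range H).card : ℝ) := by
    rw [card_range]
    exact (le_mul_of_one_le_left hl0.le hK1).trans hKH1
  have h1 := g2 H hKH2 hHA Q (fun q hq => (hQ q hq).2) hQc
  have h2 := g3 (range H) (fun a ha => by
    refine le_trans ?_ hHA
    exact_mod_cast (mem_range.1 ha).le) hlH
  rw [card_range] at h2
  obtain ⟨𝒯, h𝒯⟩ : ∃ 𝒯, 𝒯 = (range H).powersetCard (k + 1) := ⟨_, rfl⟩
  rw [← h𝒯] at h1 h2 ⊢
  obtain ⟨C, hC⟩ : ∃ C, C = ∑ T ∈ 𝒯, Uni.CT T := ⟨_, rfl⟩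
  have hC0 : 0 ≤ C := by rw [hC]; exact sum_nonneg fun T _ => Uni.CT_nonneg T
  have hU : ∀ g : Finset ℕ → ℝ, (∀ i, 0 ≤ g i) → (∀ i, g i ≤ 1) →
      ∑ T ∈ 𝒯, g T * (cntQ Q x T : ℝ) ≤ (4 ^ k * ∑ T ∈ 𝒯, g T * Uni.CT T + e1 * (H : ℝ) ^ (k + 1)) * P := by
    intro g hg0 hg1
    have h3 := g1 0 H hKH1 (by rw [Nat.zero_add]; exact hHA) g hg0 hg1
    rw [Nat.zero_add, ← range_eq_Ico, ← h𝒯] at h3
    refine le_trans (sum_le_sum fun T _ => ?_) h3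
    apply mul_le_mul_of_nonneg_left _ (hg0 T)
    exact_mod_cast cntQ_le (fun q hq => (hQ q hq).1) x T
  have herr : e1 * (H : ℝ) ^ (k + 1) ≤ e0 * C := by
    calc e1 * (H : ℝ) ^ (k + 1) = e0 * (κ * (H : ℝ) ^ (k + 1)) := by rw [he1]; ring
      _ ≤ e0 * C := by
          apply mul_le_mul_of_nonneg_left _ he00.le
          rw [hC]; exact h2
  have hcore := prop_core 𝒯 (fun T => Uni.CT T) (fun T => (cntQ Q x T : ℝ)) (fun T => Uni.CT_nonneg _) hP0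
    (show (0 : ℝ) ≤ 4 ^ k by positivity) hc hε hU (lamb := δ ^ (k + 1) - ε / 2) h1
  rw [← hC] at hcore ⊢
  refine close (by linarith) (by positivity) hε hC0 ?_ hcore
  rw [← he0]
  exact herr

end Pool.Agent.L0h43.TC
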