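import Pool.Agent.L0h43.TC.Core

/-!
# Lower bounds for the sums over the subsets of a set of shifts
-/

set_option autoImplicit false

namespace Pool.Agent.L0h43.TC

open Finset Filter Topology Pool.Agent.H387R2
open Pool.Agent.L0h43.TA Pool.Agent.L0h43.TB

lemma PF_tend (k : ℕ) :
    Tendsto (fun lam : ℝ => ∏ i ∈ range k, (1 - (i + 1 / 2 : ℝ) / lam)) atTop (𝓝 1) := by
  have h : Tendsto (fun lam : ℝ => ∏ i ∈ range k, (1 - (i + 1 / 2 : ℝ) / lam)) atTop
      (𝓝 (∏ _i ∈ range k, ((1 : ℝ) - 0))) := by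
    apply tendsto_finsetProd
    intro i _
    apply Tendsto.const_sub
    exact tendsto_const_nhds.div_atTop tendsto_id
  simpa using h

lemma li_low (m N : ℕ) (hN : 2 ≤ N) :
    ((N : ℝ) - 2) * (1 / Real.log N ^ m) ≤ ∫ t in (2:ℝ)..N, 1 / Real.log t ^ m := by
  have hN2 : (2 : ℝ) ≤ N := by exact_mod_cast hN
  have hc : ContinuousOn (fun t : ℝ => 1 / Real.log t ^ m) (Set.uIcc 2 (N : ℝ)) := by
    rw [Set.uIcc_of_le hN2]
    apply ContinuousOn.div continuousOn_const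
    · apply ContinuousOn.pow
      apply Real.continuousOn_log.mono
      intro t ht
      have := ht.1
      simp only [Set.mem_compl_iff, Set.mem_singleton_iff]
      linarith
    · intro t ht
      have : 0 < Real.log t := Real.log_pos (by have := ht.1; linarith)
      positivity
  have h := intervalIntegral.integral_mono_on (a := 2) (b := (N : ℝ)) (f := fun _ => 1 / Real.log (N : ℝ) ^ m)
    (g := fun t => 1 / Real.log t ^ m) (μ := MeasureTheory.volume) hN2 intervalIntegrable_const hc.intervalIntegrable (by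
      intro t ht
      have h0 : 0 < Real.log t := Real.log_pos (by have := ht.1; linarith)
      have h1 : Real.log t ≤ Real.log N := Real.log_le_log (by have := ht.1; linarith) ht.2
      apply one_div_le_one_div_of_le (by positivity)
      exact pow_le_pow_left₀ h0.le h1 m)
  rw [intervalIntegral.integral_const, smul_eq_mul] at h
  exact h

/-- the sum of the singular series -/
lemma dense_CT (k : ℕ) : ∃ κ : ℝ, 0 < κ ∧ ∀ A : ℝ, 0 ≤ A → ∀ᶠ x : ℝ in atTop,
    ∀ S : Finset ℕ, (∀ a ∈ S, (a : ℝ) ≤ Real.log x ^ A) → Real.log x ≤ S.card →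
      κ * (S.card : ℝ) ^ (k + 1) ≤ ∑ T ∈ S.powersetCard (k + 1), Uni.CT T := by
  refine ⟨(1 / 2) ^ (k + 1) / (3 / 2) ^ k / (k + 1).factorial / 2, by positivity, fun A hA => ?_⟩
  obtain ⟨N₀, hN₀⟩ := eventually_atTop.1 (Pool.Agent.H387R2.MB.CT_sum_ge k (lam := 1) one_pos 1 le_rfl (A + 1))
  filter_upwards [ev_real 1 A one_pos hA N₀] with x hx S hS hc
  obtain ⟨h1, h2, h3, h4, h5, h6, h7⟩ := hx
  have h8 := hN₀ _ h1 0 S (fun a _ => Nat.modEq_one) (fun a ha => Nat.le_floor ((hS a ha).trans h5)) (by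
    rw [Nat.totient_one, Nat.cast_one, div_one, one_mul, one_mul]
    exact h3.trans hc)
  rw [Nat.totient_one, Nat.cast_one, div_one, one_pow, mul_one] at h8
  exact h8

/-- **lower bound for the sum over the subsets of a set of shifts** -/
theorem dense_low (k : ℕ) (hk : 1 ≤ k) (ε : ℝ) (hε : 0 < ε) : ∃ K : ℝ, 1 ≤ K ∧ ∀ A : ℝ, 0 ≤ A →
    ∀ᶠ x : ℝ in atTop, ∀ S : Finset ℕ, (∀ a ∈ S, (a : ℝ) ≤ Real.log x ^ A) → K * Real.log x ≤ S.card →
      (1 - ε) * (∑ T ∈ S.powersetCard (k + 1), Uni.CT T) * (x / Real.log x ^ (k + 1)) ≤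
        ∑ T ∈ S.powersetCard (k + 1), (cnt x T : ℝ) := by
  obtain ⟨κ, hκ0, hκ⟩ := dense_CT k
  obtain ⟨e, he⟩ : ∃ e : ℝ, e = min (ε / 5) (1 / 5) := ⟨_, rfl⟩
  have he0 : 0 < e := by rw [he]; exact lt_min (by positivity) (by norm_num)
  have heε : e ≤ ε / 5 := by rw [he]; exact min_le_left _ _
  have he1 : e ≤ 1 / 5 := by rw [he]; exact min_le_right _ _
  obtain ⟨lam, hlam1, hlam2, hlam3⟩ := (((PF_tend k).eventually_const_lt (show 1 - e < 1 by linarith)).and
    ((eventually_gt_atTop ((k : ℝ) - 1 / 2)).and (eventually_ge_atTop (1 : ℝ)))).exists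
  refine ⟨lam, hlam3, fun A hA => ?_⟩
  obtain ⟨N₀, hN₀⟩ := Pool.Agent.TH891.BD.universal2 k 1 hk le_rfl lam (1 - e) (A + 1) hlam2 (by linarith) hlam1
  filter_upwards [ev_real 1 A one_pos hA (max N₀ (max 3 ⌈2 / e⌉₊)), hκ A hA, main_bd (k + 1) e he0,
    ev_small (e * κ) (by positivity) (A + ((k + 1 : ℕ) : ℝ)), eventually_gt_atTop 1] with x hx hκx hm h2' hx1
  obtain ⟨a1, a2, a3, a4, a5, a6, a7⟩ := hx
  intro S hS hcard
  obtain ⟨N, hN⟩ : ∃ N, N = ⌊x⌋₊ := ⟨_, rfl⟩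
  rw [← hN] at a1 a2 a3 a4 a5 a6 hm
  have hx0 : 0 < x := by linarith
  obtain ⟨l, hl⟩ : ∃ l, l = Real.log x := ⟨_, rfl⟩
  have hl0 : 0 < l := by rw [hl]; exact Real.log_pos hx1
  rw [← hl] at hκx hm h2' hS hcard a3 a4 a5 ⊢
  obtain ⟨L, hL⟩ : ∃ L, L = Real.log (N : ℝ) := ⟨_, rfl⟩
  rw [← hL] at a2 a3 a4 a5 hm
  have hL0 : 0 < L := by linarith
  have hN3 : 3 ≤ N := (le_max_left _ _).trans ((le_max_right _ _).trans a1)
  have hNe : 2 / e ≤ N := (Nat.le_ceil _).trans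
    (by exact_mod_cast (le_max_right _ _).trans ((le_max_right _ _).trans a1))
  have hN0 : (0 : ℝ) < N := by exact_mod_cast (by omega : 0 < N)
  obtain ⟨P, hP⟩ : ∃ P, P = x / l ^ (k + 1) := ⟨_, rfl⟩
  have hP0 : 0 < P := by rw [hP]; positivity
  rw [← hP] at hm ⊢
  obtain ⟨C, hC⟩ : ∃ C, C = ∑ T ∈ S.powersetCard (k + 1), Uni.CT T := ⟨_, rfl⟩
  have hC0 : 0 ≤ C := by rw [hC]; exact sum_nonneg fun T _ => Uni.CT_nonneg T
  have h1 := hN₀ N ((le_max_left _ _).trans a1) 0 S (fun a _ => Nat.modEq_one)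
    (fun a ha => by rw [← hL]; exact (hS a ha).trans a5) (by
    rw [Nat.totient_one, Nat.cast_one, div_one, mul_one, ← hL]
    exact (mul_le_mul_of_nonneg_left a3 (by linarith)).trans hcard)
  have h2 := hκx S hS ((le_mul_of_one_le_left hl0.le hlam3).trans hcard)
  rw [← hC] at h1 h2 ⊢
  have hli := li_low (k + 1) N (by omega)
  rw [← hL] at hli
  have h3 : (1 - e) * (N / L ^ (k + 1)) ≤ ∫ t in (2:ℝ)..N, 1 / Real.log t ^ (k + 1) := by
    refine le_trans ?_ hli
    rw [div_le_iff₀ he0] at hNe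
    calc (1 - e) * (N / L ^ (k + 1)) = ((1 - e) * N) * (1 / L ^ (k + 1)) := by ring
      _ ≤ ((N : ℝ) - 2) * (1 / L ^ (k + 1)) := by
          apply mul_le_mul_of_nonneg_right _ (by positivity)
          linarith
  have h1e : 0 ≤ 1 - e := by linarith
  have h4 : (1 - e) ^ 3 * C * P ≤ ∑ T ∈ S.powersetCard (k + 1), (Uni.piT T N : ℝ) := by
    refine le_trans ?_ h1
    calc (1 - e) ^ 3 * C * P = ((1 - e) * C) * ((1 - e) * ((1 - e) * P)) := by ring
      _ ≤ ((1 - e) * C) * ((1 - e) * (N / L ^ (k + 1))) := by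
          apply mul_le_mul_of_nonneg_left _ (by positivity)
          exact mul_le_mul_of_nonneg_left hm.1 h1e
      _ ≤ _ := mul_le_mul_of_nonneg_left h3 (by positivity)
  -- from `piT` to the counts
  have hlA : (0 : ℝ) ≤ l ^ A := by positivity
  have h5 : ∑ T ∈ S.powersetCard (k + 1), (Uni.piT T N : ℝ) ≤
      ∑ T ∈ S.powersetCard (k + 1), (cnt x T : ℝ) + (S.card : ℝ) ^ (k + 1) * l ^ A := by
    have h6 : ∀ T ∈ S.powersetCard (k + 1), (Uni.piT T N : ℝ) ≤ (cnt x T : ℝ) + l ^ A := by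
      intro T hT
      rw [mem_powersetCard] at hT
      have h7 := piT_le_cn (N := N) (H := ⌊l ^ A⌋₊) hT.2 (fun t ht => Nat.le_floor (hS t (hT.1 ht)))
      have h8 : cn N T = cnt x T := by rw [hN]; rfl
      rw [h8] at h7
      have h9 : (Uni.piT T N : ℝ) ≤ (cnt x T : ℝ) + (⌊l ^ A⌋₊ : ℝ) := by exact_mod_cast h7
      exact h9.trans (add_le_add le_rfl (Nat.floor_le hlA))
    refine (sum_le_sum h6).trans ?_
    rw [sum_add_distrib, sum_const, nsmul_eq_mul]
    exact add_le_add le_rfl (mul_le_mul_of_nonneg_right (card_pow_le S (k + 1)) hlA)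
  have h10 : (S.card : ℝ) ^ (k + 1) * l ^ A ≤ e * C * P := by
    have h11 : l ^ A ≤ e * κ * P := by
      rw [Real.rpow_add hl0, Real.rpow_natCast] at h2'
      rw [hP, mul_div_assoc', le_div_iff₀ (by positivity)]
      refine h2'.trans ?_
      apply mul_le_mul_of_nonneg_left _ (by positivity)
      calc x ^ (1 / 2 : ℝ) ≤ x ^ (1 : ℝ) := Real.rpow_le_rpow_of_exponent_le hx1.le (by norm_num)
        _ = x := Real.rpow_one x
    calc (S.card : ℝ) ^ (k + 1) * l ^ A ≤ (S.card : ℝ) ^ (k + 1) * (e * κ * P) :=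
          mul_le_mul_of_nonneg_left h11 (by positivity)
      _ = e * (κ * (S.card : ℝ) ^ (k + 1)) * P := by ring
      _ ≤ e * C * P := by gcongr
  have h12 : 1 - ε ≤ (1 - e) ^ 3 - e := by
    have h13 := one_add_mul_le_pow (a := -e) (by linarith) 3
    have h14 : (1 + -e : ℝ) = 1 - e := by ring
    rw [h14] at h13
    push_cast at h13
    linarith
  calc (1 - ε) * C * P = (1 - ε) * (C * P) := by ring
    _ ≤ ((1 - e) ^ 3 - e) * (C * P) := mul_le_mul_of_nonneg_right h12 (by positivity)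
    _ = (1 - e) ^ 3 * C * P - e * C * P := by ring
    _ ≤ _ := by linarith

open Classical in
/-- the number of `1 ≤ m ≤ x` with all `m + t` in `Q` -/
noncomputable def cntQ (Q : Finset ℕ) (x : ℝ) (T : Finset ℕ) : ℕ :=
  ((Icc 1 ⌊x⌋₊).filter (fun m => ∀ t ∈ T, m + t ∈ Q)).card

lemma cntQ_le {Q : Finset ℕ} (hQ : ∀ q ∈ Q, q.Prime) (x : ℝ) (T : Finset ℕ) : cntQ Q x T ≤ cnt x T := by
  classical
  unfold cntQ cnt
  apply card_le_card
  intro m hm
  rw [mem_filter] at hm ⊢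
  exact ⟨hm.1, fun t ht => hQ _ (hm.2 t ht)⟩

/-- **lower bound in a set of primes** -/
theorem rel_low (k : ℕ) (δ ε : ℝ) (hδ : 0 < δ) (hδ1 : δ ≤ 1) (hε : 0 < ε) : ∃ K : ℝ, 1 ≤ K ∧ ∀ A : ℝ, 0 ≤ A →
    ∀ᶠ x : ℝ in atTop, ∀ H : ℕ, K * Real.log x ≤ H → (H : ℝ) ≤ Real.log x ^ A →
      ∀ Q : Finset ℕ, (∀ q ∈ Q, (q : ℝ) ≤ x) → δ * (x / Real.log x) ≤ Q.card →
      (δ ^ (k + 1) - ε) * (∑ T ∈ (range H).powersetCard (k + 1), Uni.CT T) * (x / Real.log x ^ (k + 1)) ≤
        ∑ T ∈ (range H).powersetCard (k + 1), (cntQ Q x T : ℝ) := by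
  classical
  obtain ⟨e, he⟩ : ∃ e : ℝ, e = min (ε / (2 * (k + 3))) (1 / (2 * (k + 3))) := ⟨_, rfl⟩
  have hk3 : (0 : ℝ) < (k : ℝ) + 3 := by positivity
  have he0 : 0 < e := by rw [he]; exact lt_min (by positivity) (by positivity)
  have heε : (k + 3) * e ≤ ε / 2 := by
    calc (k + 3) * e ≤ (k + 3) * (ε / (2 * (k + 3))) := by
          apply mul_le_mul_of_nonneg_left _ hk3.le
          rw [he]; exact min_le_left _ _
      _ = ε / 2 := by field_simp
  have he1 : (k + 3) * e ≤ 1 / 2 := by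
    calc (k + 3) * e ≤ (k + 3) * (1 / (2 * (k + 3))) := by
          apply mul_le_mul_of_nonneg_left _ hk3.le
          rw [he]; exact min_le_right _ _
      _ = 1 / 2 := by field_simp
  have hk0 : (0 : ℝ) ≤ k := Nat.cast_nonneg k
  have he2 : e ≤ 1 / 6 := by nlinarith
  obtain ⟨D₀, hD₀⟩ := SW_up k e he0
  refine ⟨max 1 ((k * (k + 1) / 2 : ℝ) / e / ((1 - e) * δ)), le_max_left _ _, fun A hA => ?_⟩
  filter_upwards [ev_real 1 0 one_pos le_rfl 3, Real.tendsto_log_atTop.eventually_ge_atTop (max 1 (D₀ : ℝ)),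
    ev_small (e * δ) (by positivity) (A + 1), eventually_gt_atTop 1, eventually_ge_atTop (1 / e)]
    with x hx hlD h2 hx1 hxe
  obtain ⟨a1, a2, a3, a4, a5, a6, a7⟩ := hx
  intro H hKH hHA Q hQ hQc
  have hx0 : 0 < x := by linarith
  obtain ⟨N, hN⟩ : ∃ N, N = ⌊x⌋₊ := ⟨_, rfl⟩
  rw [← hN] at a1 a6
  have hNx : x < N + 1 := by rw [hN]; exact Nat.lt_floor_add_one x
  obtain ⟨l, hl⟩ : ∃ l, l = Real.log x := ⟨_, rfl⟩
  have hl0 : 0 < l := by rw [hl]; exact Real.log_pos hx1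
  rw [← hl] at hlD h2 hKH hHA hQc ⊢
  have hl1 : 1 ≤ l := (le_max_left _ _).trans hlD
  have hlH : l ≤ H := (le_mul_of_one_le_left hl0.le (le_max_left _ _)).trans hKH
  have hH0 : (0 : ℝ) < H := by linarith
  have hDH : D₀ ≤ H := by
    have : (D₀ : ℝ) ≤ H := ((le_max_right _ _).trans hlD).trans hlH
    exact_mod_cast this
  have hSW := hD₀ H hDH
  obtain ⟨C, hC⟩ : ∃ C, C = ∑ T ∈ (range H).powersetCard (k + 1), Uni.CT T := ⟨_, rfl⟩
  have hC0 : 0 ≤ C := by rw [hC]; exact sum_nonneg fun T _ => Uni.CT_nonneg T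
  have hSW' : (k + 1).factorial * C ≤ (1 + e) * (H : ℝ) ^ (k + 1) := by
    rw [hC]; exact hSW
  rw [← hC]
  -- the length is small
  have hHsm : (H : ℝ) ≤ e * δ * (x / l) := by
    rw [mul_div_assoc', le_div_iff₀ hl0]
    calc (H : ℝ) * l ≤ l ^ A * l := mul_le_mul_of_nonneg_right hHA hl0.le
      _ = l ^ (A + 1) := by rw [Real.rpow_add hl0, Real.rpow_one]
      _ ≤ e * δ * x ^ (1 / 2 : ℝ) := h2
      _ ≤ e * δ * x := by
          apply mul_le_mul_of_nonneg_left _ (by positivity)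
          calc x ^ (1 / 2 : ℝ) ≤ x ^ (1 : ℝ) := Real.rpow_le_rpow_of_exponent_le hx1.le (by norm_num)
            _ = x := Real.rpow_one x
  -- the mean
  obtain ⟨y, hy⟩ : ∃ y : ℝ, y = (1 - e) * δ * (H / l) := ⟨_, rfl⟩
  have h1e : 0 < 1 - e := by linarith
  have hy0 : 0 < y := by rw [hy]; positivity
  have hsum : y * ((Icc 1 N).card : ℝ) ≤
      ∑ n ∈ Icc 1 N, ((((range H).filter (fun t => n + t ∈ Q)).card : ℕ) : ℝ) := by
    have h3 : ∑ n ∈ Icc 1 N, ((range H).filter (fun t => n + t ∈ Q)).card =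
        ∑ t ∈ range H, ((Icc 1 N).filter (fun n => n + t ∈ Q)).card := by
      simp only [card_filter]
      rw [sum_comm]
    have h4 : ∀ t ∈ range H, (Q.card : ℝ) - H ≤ (((Icc 1 N).filter (fun n => n + t ∈ Q)).card : ℝ) := by
      intro t ht
      rw [mem_range] at ht
      have h5 : Q ⊆ ((Icc 1 N).filter (fun n => n + t ∈ Q)).image (· + t) ∪ Iic t := by
        intro q hq
        rw [mem_union, mem_image, mem_Iic]
        by_cases h : q ≤ t
        · right; exact h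
        · left
          refine ⟨q - t, ?_, by omega⟩
          rw [mem_filter, mem_Icc]
          have hqx : q ≤ N := by rw [hN]; exact Nat.le_floor (hQ q hq)
          refine ⟨⟨by omega, by omega⟩, ?_⟩
          rw [Nat.sub_add_cancel (by omega)]
          exact hq
      have h6 := (card_le_card h5).trans (card_union_le _ _)
      have h7 : (((Icc 1 N).filter (fun n => n + t ∈ Q)).image (· + t)).card ≤
          ((Icc 1 N).filter (fun n => n + t ∈ Q)).card := card_image_le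
      rw [Nat.card_Iic] at h6
      have h8 : Q.card ≤ ((Icc 1 N).filter (fun n => n + t ∈ Q)).card + H := by omega
      have h9 : (Q.card : ℝ) ≤ (((Icc 1 N).filter (fun n => n + t ∈ Q)).card : ℝ) + H := by exact_mod_cast h8
      linarith
    have h10 : (H : ℝ) * ((Q.card : ℝ) - H) ≤
        ∑ n ∈ Icc 1 N, ((((range H).filter (fun t => n + t ∈ Q)).card : ℕ) : ℝ) := by
      have h11 : ∑ n ∈ Icc 1 N, ((((range H).filter (fun t => n + t ∈ Q)).card : ℕ) : ℝ) =
          ∑ t ∈ range H, ((((Icc 1 N).filter (fun n => n + t ∈ Q)).card : ℕ) : ℝ) := by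
        exact_mod_cast h3
      rw [h11]
      calc (H : ℝ) * ((Q.card : ℝ) - H) = ∑ t ∈ range H, ((Q.card : ℝ) - H) := by
            rw [sum_const, card_range, nsmul_eq_mul]
        _ ≤ _ := sum_le_sum h4
    refine le_trans ?_ h10
    rw [Nat.card_Icc, Nat.add_sub_cancel]
    calc y * (N : ℝ) ≤ y * x := mul_le_mul_of_nonneg_left a6 hy0.le
      _ = H * (δ * (x / l) - e * δ * (x / l)) := by rw [hy]; ring
      _ ≤ H * ((Q.card : ℝ) - H) := by
          apply mul_le_mul_of_nonneg_left _ hH0.le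
          linarith
  have hj := Uni.jensen_desc (Icc 1 N) (fun n => ((range H).filter (fun t => n + t ∈ Q)).card) k hy0.le hsum
  have h3 : ∑ n ∈ Icc 1 N, ((((range H).filter (fun t => n + t ∈ Q)).card).descFactorial (k + 1) : ℝ)
      = (k + 1).factorial * ∑ T ∈ (range H).powersetCard (k + 1), (cntQ Q x T : ℝ) := by
    have h4 := Uni.sum_choose (Icc 1 N) (range H) (k + 1) (fun n t => n + t ∈ Q)
    simp_rw [Nat.descFactorial_eq_factorial_mul_choose]
    push_cast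
    rw [← mul_sum]
    congr 1
    have h5 : ∀ T : Finset ℕ, cntQ Q x T = ((Icc 1 N).filter (fun n => ∀ t ∈ T, n + t ∈ Q)).card := by
      intro T
      unfold cntQ
      rw [hN]
    simp_rw [h5]
    exact_mod_cast h4
  rw [h3, Uni.GG_eq k hy0, Nat.card_Icc, Nat.add_sub_cancel] at hj
  have hph := Pool.Agent.TH891.SG.ph_ge k (u := 1 / y) (by positivity)
  have hyK : (k * (k + 1) / 2 : ℝ) / e ≤ y := by
    have h4 : (k * (k + 1) / 2 : ℝ) / e / ((1 - e) * δ) ≤ H / l := by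
      rw [le_div_iff₀ hl0]
      exact (mul_le_mul_of_nonneg_right (le_max_right _ _) hl0.le).trans hKH
    rw [div_le_iff₀ (by positivity)] at h4
    rw [hy]
    linarith
  have h10 : (k * (k + 1) / 2 : ℝ) * (1 / y) ≤ e := by
    rw [mul_one_div, div_le_iff₀ hy0]
    rw [div_le_iff₀ he0] at hyK
    linarith
  have h11 : 1 - e ≤ Uni.ph k (1 / y) := by linarith
  have h12 : (1 - e) * x ≤ N := by
    rw [div_le_iff₀ he0] at hxe
    linarith
  obtain ⟨P, hP⟩ : ∃ P, P = x / l ^ (k + 1) := ⟨_, rfl⟩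
  have hP0 : 0 < P := by rw [hP]; positivity
  rw [← hP]
  obtain ⟨Z, hZ⟩ : ∃ Z, Z = ∑ T ∈ (range H).powersetCard (k + 1), (cntQ Q x T : ℝ) := ⟨_, rfl⟩
  have hZ0 : 0 ≤ Z := by rw [hZ]; exact sum_nonneg fun T _ => Nat.cast_nonneg _
  rw [← hZ] at hj ⊢
  have h13 : (1 - e) ^ (k + 3) * δ ^ (k + 1) * ((H : ℝ) ^ (k + 1) * P) ≤ (k + 1).factorial * Z := by
    refine le_trans ?_ hj
    calc (1 - e) ^ (k + 3) * δ ^ (k + 1) * ((H : ℝ) ^ (k + 1) * P) =
        ((1 - e) * x) * (y ^ (k + 1) * (1 - e)) := by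
          rw [hP, hy, mul_pow, mul_pow, div_pow, pow_succ (1 - e) (k + 2), pow_succ (1 - e) (k + 1)]
          field_simp
      _ ≤ (N : ℝ) * (y ^ (k + 1) * Uni.ph k (1 / y)) := by
          apply mul_le_mul h12 _ (by positivity) (Nat.cast_nonneg _)
          exact mul_le_mul_of_nonneg_left h11 (by positivity)
  have hBern : 1 - (k + 3) * e ≤ (1 - e) ^ (k + 3) := by
    have h := one_add_mul_le_pow (a := -e) (by linarith) (k + 3)
    have h2 : ((k + 3 : ℕ) : ℝ) * -e = -((k + 3) * e) := by push_cast; ring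
    rw [h2] at h
    have h3 : (1 + -e : ℝ) = 1 - e := by ring
    rw [h3] at h
    linarith
  rcases le_or_gt (δ ^ (k + 1)) ε with hc | hc
  · refine le_trans ?_ hZ0
    have : δ ^ (k + 1) - ε ≤ 0 := by linarith
    exact mul_nonpos_of_nonpos_of_nonneg (mul_nonpos_of_nonpos_of_nonneg this hC0) hP0.le
  have hfac : (0 : ℝ) < (k + 1).factorial := by exact_mod_cast (k + 1).factorial_pos
  have hδk : δ ^ (k + 1) ≤ 1 := pow_le_one₀ hδ.le hδ1
  have hδk0 : 0 < δ ^ (k + 1) := by positivity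
  have h14 : (δ ^ (k + 1) - ε) * (1 + e) ≤ (1 - e) ^ (k + 3) * δ ^ (k + 1) := by
    have h15 : (1 - (k + 3) * e) * δ ^ (k + 1) ≤ (1 - e) ^ (k + 3) * δ ^ (k + 1) :=
      mul_le_mul_of_nonneg_right hBern hδk0.le
    refine le_trans ?_ h15
    have h16 : ((k + 3) * e) * δ ^ (k + 1) ≤ ε / 2 * 1 := mul_le_mul heε hδk hδk0.le (by positivity)
    have h17 : δ ^ (k + 1) * e ≤ 1 * e := mul_le_mul_of_nonneg_right hδk he0.le
    have h18 : e ≤ ε / 6 := by nlinarith
    have h19 : 0 ≤ ε * e := by positivity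
    nlinarith
  have h15 : (k + 1).factorial * ((δ ^ (k + 1) - ε) * C * P) ≤ (k + 1).factorial * Z := by
    refine le_trans ?_ h13
    calc (k + 1).factorial * ((δ ^ (k + 1) - ε) * C * P) = (δ ^ (k + 1) - ε) * (((k + 1).factorial * C) * P) := by ring
      _ ≤ (δ ^ (k + 1) - ε) * (((1 + e) * (H : ℝ) ^ (k + 1)) * P) := by
          apply mul_le_mul_of_nonneg_left _ (by linarith)
          exact mul_le_mul_of_nonneg_right hSW' hP0.le
      _ = (δ ^ (k + 1) - ε) * (1 + e) * ((H : ℝ) ^ (k + 1) * P) := by ring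
      _ ≤ _ := mul_le_mul_of_nonneg_right h14 (by positivity)
  exact le_of_mul_le_mul_left h15 hfac

end Pool.Agent.L0h43.TC
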